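import Pool.Agent.Run7.h991.CompactPertMain

open Set Metric Filter Topology
open scoped NNReal ENNReal

/-- Two quasiconformal homeomorphisms `f`, `g` of an infinite-dimensional real Hilbert space onto
itself whose difference is locally compact are bilipschitz equivalent, with constant `K₁ K₂`; so
one of them is quasisymmetric (maps balls to quasiballs) if and only if the other one is (does). -/
theorem Pool.Agent.Results.MP_b924dd_an.CompactPerturbation.result :
    ∀ (K₁ K₂ : ℝ≥0) (H : Type*) [NormedAddCommGroup H] [InnerProductSpace ℝ H] [CompleteSpace H],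
      ¬ FiniteDimensional ℝ H →
      ∀ f g : H ≃ₜ H, Run7.h991.MetricQC K₁ f → Run7.h991.MetricQC K₂ g →
        (∀ p : H, ∃ V ∈ 𝓝 p, TotallyBounded ((fun x => f x - g x) '' V)) →
        (∀ x y : H, dist (f x) (f y) ≤ K₁ * K₂ * dist (g x) (g y) ∧
          dist (g x) (g y) ≤ K₁ * K₂ * dist (f x) (f y)) ∧
        (Run7.h991.IsQS f ↔ Run7.h991.IsQS g) ∧
        (Run7.h991.BallsToQuasiballs f ↔ Run7.h991.BallsToQuasiballs g) := by
  intro K₁ K₂ H _ _ _ hinf f g hf hg hT
  have hT' : ∀ p : H, ∃ V ∈ 𝓝 p, TotallyBounded ((fun x => g x - f x) '' V) := by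
    intro p
    obtain ⟨V, hV, hVT⟩ := hT p
    refine ⟨V, hV, ?_⟩
    have e : (fun x => g x - f x) '' V = (fun z => -z) '' ((fun x => f x - g x) '' V) := by
      rw [← image_comp]
      apply image_congr
      intro x _
      simp
    rw [e]
    exact hVT.image (uniformContinuous_neg)
  have h1 : ∀ x y : H, dist (f x) (f y) ≤ K₁ * K₂ * dist (g x) (g y) := fun x y =>
    Run7.h991.compact_comparison hinf f g hf hg hT x y
  have h2 : ∀ x y : H, dist (g x) (g y) ≤ K₁ * K₂ * dist (f x) (f y) := fun x y => by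
    have := Run7.h991.compact_comparison hinf g f hg hf hT' x y
    rwa [mul_comm (K₂ : ℝ)] at this
  have hC : (0 : ℝ) < K₁ * K₂ + 1 := by positivity
  have h1' : ∀ x y : H, dist (f x) (f y) ≤ ((K₁ : ℝ) * K₂ + 1) * dist (g x) (g y) := fun x y =>
    (h1 x y).trans (mul_le_mul_of_nonneg_right (by linarith) dist_nonneg)
  have h2' : ∀ x y : H, dist (g x) (g y) ≤ ((K₁ : ℝ) * K₂ + 1) * dist (f x) (f y) := fun x y =>
    (h2 x y).trans (mul_le_mul_of_nonneg_right (by linarith) dist_nonneg)
  exact ⟨fun x y => ⟨h1 x y, h2 x y⟩,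
    ⟨Run7.h991.qs_transfer hC.le h2' h1', Run7.h991.qs_transfer hC.le h1' h2'⟩,
    ⟨Run7.h991.quasiballs_transfer hC h2' h1', Run7.h991.quasiballs_transfer hC h1' h2'⟩⟩
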