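import Pool.Agent.Run7.h991.DeltaMono

open Set Metric Filter Topology
open scoped NNReal ENNReal InnerProductSpace

/-- Every `K`-quasiconformal homeomorphism of an infinite-dimensional real Hilbert space onto
itself that is 3-cyclically monotone, or the gradient of a convex function, is `1/(4K)`-monotone
and `η`-quasisymmetric with `η` depending only on `K`. -/
theorem Pool.Agent.Results.MP_b924dd_an.CyclicMonotone.result :
    ∀ K : ℝ≥0, ∃ η : ℝ≥0 ≃ₜ ℝ≥0,
      ∀ (H : Type*) [NormedAddCommGroup H] [InnerProductSpace ℝ H] [CompleteSpace H],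
        ¬ FiniteDimensional ℝ H → ∀ f : H ≃ₜ H, Run7.h991.MetricQC K f →
          (Run7.h991.CyclicMono3 f ∨
            ∃ u : H → ℝ, ConvexOn ℝ univ u ∧ ∀ x, HasGradientAt u (f x) x) →
          (∀ x y : H, ‖f x - f y‖ * ‖x - y‖ ≤ 4 * K * ⟪f x - f y, x - y⟫_ℝ) ∧
            Run7.h991.QSOn η f univ := by
  intro K
  set M : ℝ := 4 * ((K : ℝ) + 1) with hM
  have hK : (0 : ℝ) ≤ K := K.2
  have hM1 : 1 ≤ M := by rw [hM]; linarith
  obtain ⟨n, hn⟩ := pow_unbounded_of_one_lt (6 * M)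
    (show (1 : ℝ) < 1 + (1 / (4 * M)) ^ 2 by
      have : 0 < (1 / (4 * M)) ^ 2 := by positivity
      linarith)
  have hk1 : 1 ≤ (4 * M) ^ (n + 1) := one_le_pow₀ (by linarith)
  obtain ⟨η, hη⟩ := Run7.h991.exists_eta ((4 * M) ^ (n + 1)) hk1
  refine ⟨η, fun H _ _ _ hinf f hf hor => ?_⟩
  have hc : Run7.h991.CyclicMono3 f := by
    rcases hor with h | ⟨u, hu, hg⟩
    · exact h
    · exact Run7.h991.cyclic_of_gradient hu hg
  obtain ⟨e, he⟩ := Run7.h991.exists_orthonormal_seq hinf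
  constructor
  · intro x y
    have key : ∀ ε : ℝ≥0, 0 < ε →
        ‖f x - f y‖ * ‖x - y‖ ≤ 4 * ((K : ℝ) + ε) * ⟪f x - f y, x - y⟫_ℝ := by
      intro ε hε
      have := Run7.h991.cyclic_segment (k := K + ε) (lt_add_of_pos_right _ hε) f hf hc x y
      simpa using this
    have hlim : Tendsto (fun ε : ℝ => 4 * ((K : ℝ) + ε) * ⟪f x - f y, x - y⟫_ℝ) (𝓝[>] 0)
        (𝓝 (4 * ((K : ℝ) + 0) * ⟪f x - f y, x - y⟫_ℝ)) := by
      apply tendsto_nhdsWithin_of_tendsto_nhds
      exact Continuous.tendsto (by fun_prop) 0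
    rw [add_zero] at hlim
    refine ge_of_tendsto hlim ?_
    filter_upwards [self_mem_nhdsWithin] with ε hε
    exact key ⟨ε, le_of_lt hε⟩ hε
  · have hmono : Run7.h991.MMono M f := by
      intro x y
      have := Run7.h991.cyclic_segment (k := K + 1) (by simp) f hf hc x y
      simpa [hM] using this
    exact Run7.h991.global_qs _ hk1 η hη f (Run7.h991.weak_of_mono hM1 hn.le hmono he)
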