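import Pool.Agent.Run7.h991.Generic

open Set Metric Filter Topology
open scoped NNReal ENNReal

/-- Generic local quasisymmetry with a dimension-free control function: for every `K` there is a
homeomorphism `η` of `[0,∞)` such that every `K`-quasiconformal homeomorphism `f` of a real Banach
space `H` onto itself is locally `η`-quasisymmetric on a dense open subset of `H`. -/
theorem Pool.Agent.Results.MP_b924dd_an.GenericLocalQS.result :
    ∀ K : ℝ≥0, ∃ η : ℝ≥0 ≃ₜ ℝ≥0,
      ∀ (H : Type*) [NormedAddCommGroup H] [NormedSpace ℝ H] [CompleteSpace H] (f : H ≃ₜ H),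
        Run7.h991.MetricQC K f →
          ∃ U : Set H, IsOpen U ∧ Dense U ∧
            ∀ x ∈ U, ∃ V ∈ 𝓝 x, Run7.h991.QSOn η f V := by
  intro K
  obtain ⟨η, hη⟩ := Run7.h991.exists_eta ((K : ℝ) + 1) (by linarith [K.2])
  exact ⟨η, fun H _ _ _ f hf => Run7.h991.generic K η hη f hf⟩
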